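import Mathlib

/-!
# Elimination of one variable, irreducible factors with many zeros
-/

set_option autoImplicit false

namespace Pool.Agent.Zk25.ZE

open MvPolynomial

variable {F : Type*} [Field F]

theorem det_totalDegree {m k D : ℕ} (M : Matrix (Fin k) (Fin k) (MvPolynomial (Fin m) F))
    (hM : ∀ i j, (M i j).totalDegree ≤ D) : M.det.totalDegree ≤ k * D := by
  rw [Matrix.det_apply]
  refine totalDegree_finsetSum_le fun τ _ => ?_
  refine (totalDegree_smul_le _ _).trans ((totalDegree_finsetProd _ _).trans ?_)
  refine (Finset.sum_le_sum fun i _ => hM (τ i) i).trans ?_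
  simp

theorem resultant_totalDegree {m D : ℕ} {f g : Polynomial (MvPolynomial (Fin m) F)}
    (hf : ∀ i, (f.coeff i).totalDegree ≤ D) (hg : ∀ i, (g.coeff i).totalDegree ≤ D) :
    (Polynomial.resultant f g).totalDegree ≤ (f.natDegree + g.natDegree) * D := by
  refine det_totalDegree _ fun i j => ?_
  unfold Polynomial.sylvester
  rw [Matrix.of_apply]
  refine Fin.addCases (fun j => ?_) (fun j => ?_) j
  · rw [Fin.addCases_left]
    split_ifs
    · exact hg _
    · simp
  · rw [Fin.addCases_right]
    split_ifs
    · exact hf _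
    · simp

theorem resultant_ne {m : ℕ} {f g : Polynomial (MvPolynomial (Fin m) F)} (hf : Irreducible f)
    (hd : f.natDegree ≠ 0) (hfg : ¬ f ∣ g) : Polynomial.resultant f g ≠ 0 := by
  have hprim : f.IsPrimitive := hf.isPrimitive hd
  have h1 : Irreducible (f.map (algebraMap (MvPolynomial (Fin m) F)
      (FractionRing (MvPolynomial (Fin m) F)))) :=
    (hprim.irreducible_iff_irreducible_map_fraction_map).1 hf
  have h2 : ¬ (f.map (algebraMap (MvPolynomial (Fin m) F)
      (FractionRing (MvPolynomial (Fin m) F)))) ∣ (g.map (algebraMap (MvPolynomial (Fin m) F)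
      (FractionRing (MvPolynomial (Fin m) F)))) := fun h =>
    hfg ((hprim.dvd_iff_fraction_map_dvd_fraction_map _).2 h)
  have h3 := (h1.coprime_iff_not_dvd).2 h2
  have hinj := FaithfulSMul.algebraMap_injective (MvPolynomial (Fin m) F)
    (FractionRing (MvPolynomial (Fin m) F))
  intro h0
  have h4 : Polynomial.resultant (f.map (algebraMap (MvPolynomial (Fin m) F)
      (FractionRing (MvPolynomial (Fin m) F)))) (g.map (algebraMap (MvPolynomial (Fin m) F)
      (FractionRing (MvPolynomial (Fin m) F)))) = 0 := by
    rw [Polynomial.natDegree_map_eq_of_injective hinj, Polynomial.natDegree_map_eq_of_injective hinj,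
      Polynomial.resultant_map_map, h0, map_zero]
  exact (Polynomial.resultant_eq_zero_iff.1 h4).2 h3

/-- an irreducible factor with many zeros -/
theorem exists_irred {m : ℕ} (Z : MvPolynomial (Fin m) F → ℕ)
    (hZ : ∀ a b, Z (a * b) ≤ Z a + Z b) (hu : ∀ a, IsUnit a → Z a = 0) :
    ∀ (d : ℕ) (P : MvPolynomial (Fin m) F), P.totalDegree = d → P ≠ 0 → 0 < Z P →
      ∃ Q, Irreducible Q ∧ Q ∣ P ∧ Z P * Q.totalDegree ≤ P.totalDegree * Z Q := by
  intro d
  induction d using Nat.strong_induction_on with
  | _ d ih =>
    intro P hPd hP hZP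
    by_cases hirr : Irreducible P
    · exact ⟨P, hirr, dvd_rfl, by rw [mul_comm]⟩
    · have hnu : ¬ IsUnit P := fun h => by
        rw [hu P h] at hZP
        exact absurd hZP (lt_irrefl _)
      rw [irreducible_iff] at hirr
      push Not at hirr
      obtain ⟨a, b, hab, ha, hb⟩ := hirr hnu
      have ha0 : a ≠ 0 := by
        rintro rfl
        rw [zero_mul] at hab
        exact hP hab
      have hb0 : b ≠ 0 := by
        rintro rfl
        rw [mul_zero] at hab
        exact hP hab
      have hdeg : P.totalDegree = a.totalDegree + b.totalDegree := by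
        rw [hab, totalDegree_mul_of_isDomain ha0 hb0]
      have hpos : ∀ c : MvPolynomial (Fin m) F, c ≠ 0 → ¬ IsUnit c → 0 < c.totalDegree := by
        intro c hc hcu
        rw [Nat.pos_iff_ne_zero]
        intro h0
        apply hcu
        rw [totalDegree_eq_zero_iff_eq_C] at h0
        rw [h0]
        refine (isUnit_iff_ne_zero.2 ?_).map C
        intro h1
        rw [h1, map_zero] at h0
        exact hc h0
      have hpa := hpos a ha0 ha
      have hpb := hpos b hb0 hb
      have hsum := hZ a b
      rw [← hab] at hsum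
      have key : ∀ c, c ∣ P → c ≠ 0 → 0 < c.totalDegree → c.totalDegree < P.totalDegree →
          Z P * c.totalDegree ≤ P.totalDegree * Z c →
          ∃ Q, Irreducible Q ∧ Q ∣ P ∧ Z P * Q.totalDegree ≤ P.totalDegree * Z Q := by
        intro c hcP hc0 hc1 hc2 hc3
        have hZc : 0 < Z c := by
          rw [Nat.pos_iff_ne_zero]
          intro h0
          rw [h0, mul_zero] at hc3
          have := Nat.mul_pos hZP hc1
          omega
        obtain ⟨Q, h1, h2, h3⟩ := ih c.totalDegree (hPd ▸ hc2) c rfl hc0 hZc
        refine ⟨Q, h1, h2.trans hcP, ?_⟩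
        have h4 : c.totalDegree * (Z P * Q.totalDegree) ≤ c.totalDegree * (P.totalDegree * Z Q) := by
          calc c.totalDegree * (Z P * Q.totalDegree) = (Z P * c.totalDegree) * Q.totalDegree := by ring
            _ ≤ (P.totalDegree * Z c) * Q.totalDegree := Nat.mul_le_mul_right _ hc3
            _ = P.totalDegree * (Z c * Q.totalDegree) := by ring
            _ ≤ P.totalDegree * (c.totalDegree * Z Q) := Nat.mul_le_mul_left _ h3
            _ = c.totalDegree * (P.totalDegree * Z Q) := by ring
        exact Nat.le_of_mul_le_mul_left h4 hc1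
      by_cases hca : Z P * a.totalDegree ≤ P.totalDegree * Z a
      · exact key a ⟨b, hab⟩ ha0 hpa (by omega) hca
      · refine key b ⟨a, by rw [hab, mul_comm]⟩ hb0 hpb (by omega) ?_
        rw [not_le] at hca
        have h5 : Z P * P.totalDegree ≤ P.totalDegree * (Z a + Z b) := by
          rw [mul_comm]
          exact Nat.mul_le_mul_left _ hsum
        have h6 : Z P * P.totalDegree = Z P * a.totalDegree + Z P * b.totalDegree := by
          rw [hdeg, mul_add]
        rw [mul_add] at h5
        omega

end Pool.Agent.Zk25.ZE
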